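import Pool.Agent.H937R2.Main

set_option autoImplicit false

namespace Pool.Agent.Results.MP_2bf81a_ag.NotEmbedding

open Pool.Agent.H937R2 Topology

/-- **The theta map `Th : 𝒜_g(2,4) → ℙ^{2^g-1}` is not an embedding for any `g ≥ 4`.**
For every `g ≥ 4` there are a point `x` of `𝒜_g(2,4)` and a function `f` that is holomorphic near
`x` on the analytic space `𝒜_g(2,4) = ℋ_g / Γ_g(2,4)`, such that there is no function `G`,
holomorphic near `Th(x)` on `ℙ^{2^g-1}`, with `f = G ∘ Th` near `x`. That is, the homomorphism of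
local rings from `ℙ^{2^g-1}` at `Th(x)` to `𝒜_g(2,4)` at `x` is not surjective, so that `Th` is not
an isomorphism of analytic spaces onto its image near `x`.

The point is the class of `i·1`, and `f` is given near it by `τ₁₂τ₂₃τ₃₄τ₄₁`. -/
theorem result (g : ℕ) (hg : 4 ≤ g) :
    ∃ (x : A24 g) (f : A24 g → ℂ), HolA f x ∧
      ¬ ∃ G : PN g → ℂ, HolP G (thetaMap g x) ∧ f =ᶠ[𝓝 x] G ∘ thetaMap g :=
  exists_not_pullback g hg

end Pool.Agent.Results.MP_2bf81a_ag.NotEmbedding
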